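import Pool.Agent.W601.RP.Stm2

/-!
# Project RP, part NUC
-/

set_option autoImplicit false
open scoped Classical
open Filter Topology

namespace Pool.Agent.W864.RP

open Pool.Agent.W601.RP

lemma nu_nonneg (t : ℕ) : 0 ≤ nu t := by
  unfold nu
  split_ifs
  · positivity
  · exact le_rfl

lemma chain_summable (h : S_NODE) (B : Set ℕ) (hB : Chain B) : Summable (B.indicator nu) := by
  obtain ⟨_, _, h3, h4, _⟩ := h
  have e : B.indicator nu = {t | t ∈ B ∧ IsNode t}.indicator nu := by
    funext t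
    by_cases hb : t ∈ B
    · by_cases ht : IsNode t
      · rw [Set.indicator_of_mem hb, Set.indicator_of_mem (show t ∈ {t | t ∈ B ∧ IsNode t} from ⟨hb, ht⟩)]
      · rw [Set.indicator_of_mem hb, Set.indicator_of_notMem (fun hh => ht hh.2)]
        unfold nu
        rw [if_neg ht]
    · rw [Set.indicator_of_notMem hb, Set.indicator_of_notMem (fun hh => hb hh.1)]
  rw [e, ← summable_subtype_iff_indicator]
  have hg : Summable (fun n : ℕ => (n : ℝ) * (1 / 2 : ℝ) ^ n) := by
    have := summable_pow_mul_geometric_of_norm_lt_one 1 (r := (1 / 2 : ℝ)) (by norm_num)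
    simpa using this
  have hinj : Function.Injective (fun t : {t | t ∈ B ∧ IsNode t} => nL (lt (t : ℕ))) := by
    intro t u htu
    by_contra hne
    have hne' : (t : ℕ) ≠ (u : ℕ) := fun hh => hne (Subtype.ext hh)
    rcases hB t t.2.1 u u.2.1 hne' with hc | hc
    · exact absurd htu (ne_of_lt (h4 _ _ hc).2.2.2.1)
    · exact absurd htu.symm (ne_of_lt (h4 _ _ hc).2.2.2.1)
  refine Summable.of_nonneg_of_le (fun t => nu_nonneg _) (fun t => ?_) (hg.comp_injective hinj)
  show nu (t : ℕ) ≤ (nL (lt (t : ℕ)) : ℝ) * (1 / 2 : ℝ) ^ (nL (lt (t : ℕ)))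
  unfold nu
  rw [if_pos t.2.2]
  have h5 : (((lt (t : ℕ)).2.length : ℕ) : ℝ) ≤ ((nL (lt (t : ℕ)) : ℕ) : ℝ) := by
    exact_mod_cast (h3 _ t.2.2).2.2.2.2.2.2.1
  exact mul_le_mul_of_nonneg_right h5 (by positivity)

theorem nuc : S_NODE → S_NUC := by
  intro h A hA
  obtain ⟨F, hF, hAF⟩ := hA
  have hs : Summable (fun t => ∑ B ∈ F, B.indicator nu t) :=
    summable_sum fun B hB => chain_summable h B (hF B hB)
  refine Summable.of_nonneg_of_le (fun t => Set.indicator_nonneg (fun t _ => nu_nonneg t) t)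
    (fun t => ?_) hs
  by_cases ht : t ∈ A
  · rw [Set.indicator_of_mem ht]
    obtain ⟨B, hB⟩ := Set.mem_iUnion.1 (hAF ht)
    obtain ⟨hBF, htB⟩ := Set.mem_iUnion.1 hB
    refine le_trans (le_of_eq ?_) (Finset.single_le_sum (f := fun B : Set ℕ => B.indicator nu t)
      (fun B' _ => Set.indicator_nonneg (fun t _ => nu_nonneg t) t) hBF)
    show nu t = B.indicator nu t
    rw [Set.indicator_of_mem htB]
  · rw [Set.indicator_of_notMem ht]
    exact Finset.sum_nonneg fun B _ => Set.indicator_nonneg (fun t _ => nu_nonneg t) t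

end Pool.Agent.W864.RP
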